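import Mathlib

set_option autoImplicit false

/-!
Alternating sums over the subsets of a finite set, and binomial coefficients modulo a prime.
-/

namespace Pool.Agent.Q250.MZ

open Finset

variable {ι : Type*} [DecidableEq ι]

/-- the alternating sum of a function over the subsets of `T` -/
def alt {R : Type*} [CommRing R] (T : Finset ι) (f : Finset ι → R) : R :=
  ∑ U ∈ T.powerset, (-1) ^ (T.card - U.card) * f U

theorem alt_congr {R : Type*} [CommRing R] {T : Finset ι} {f g : Finset ι → R}
    (h : ∀ U ⊆ T, f U = g U) : alt T f = alt T g := by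
  unfold alt
  refine Finset.sum_congr rfl fun U hU => ?_
  rw [h U (mem_powerset.mp hU)]

theorem alt_mul_left {R : Type*} [CommRing R] (T : Finset ι) (c : R) (f : Finset ι → R) :
    alt T (fun U => c * f U) = c * alt T f := by
  unfold alt
  rw [Finset.mul_sum]
  exact Finset.sum_congr rfl fun U _ => by ring

theorem alt_sum {R : Type*} [CommRing R] {κ : Type*} (T : Finset ι) (s : Finset κ)
    (f : κ → Finset ι → R) : alt T (fun U => ∑ j ∈ s, f j U) = ∑ j ∈ s, alt T (f j) := by
  unfold alt
  rw [Finset.sum_comm]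
  exact Finset.sum_congr rfl fun U _ => by rw [Finset.mul_sum]

theorem alt_cast {R : Type*} [CommRing R] (T : Finset ι) (f : Finset ι → ℤ) :
    ((alt T f : ℤ) : R) = alt T (fun U => (f U : R)) := by
  unfold alt
  push_cast
  rfl

/-- the alternating sum of a function of the number of elements -/
theorem alt_card {R : Type*} [CommRing R] (T : Finset ι) (g : ℕ → R) :
    alt T (fun U => g U.card) =
      ∑ j ∈ range (T.card + 1), (T.card.choose j : R) * ((-1) ^ (T.card - j) * g j) := by
  unfold alt
  rw [Finset.sum_powerset_apply_card (fun j => (-1) ^ (T.card - j) * g j)]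
  exact Finset.sum_congr rfl fun j _ => by rw [nsmul_eq_mul]

/-- the top coefficient -/
theorem alt_eval [Fintype ι] (A : ι → ℤ) (P : MvPolynomial ι ℤ) (T : Finset ι)
    (hP : P.totalDegree ≤ T.card) :
    alt T (fun U => MvPolynomial.eval (fun i => if i ∈ U then A i else 0) P) =
      (∏ t ∈ T, A t) * P.coeff (∑ t ∈ T, Finsupp.single t 1) := by
  classical
  set e : ι →₀ ℕ := ∑ t ∈ T, Finsupp.single t 1 with he
  have he1 : ∀ i, e i = if i ∈ T then 1 else 0 := by
    intro i
    rw [he, Finsupp.finsetSum_apply]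
    simp [Finsupp.single_apply]
  have key : ∀ d ∈ P.support, ∑ U ∈ T.powerset, (-1 : ℤ) ^ (T.card - U.card) *
      ∏ i, (if i ∈ U then A i else 0) ^ d i = if d = e then ∏ t ∈ T, A t else 0 := by
    intro d hd
    have h1 : ∀ U ∈ T.powerset, (-1 : ℤ) ^ (T.card - U.card) *
        ∏ i, (if i ∈ U then A i else 0) ^ d i =
        (∏ i ∈ Tᶜ, (0 : ℤ) ^ d i) * ((∏ i ∈ U, A i ^ d i) * ∏ i ∈ T \ U, (-(0 : ℤ) ^ d i)) := by
      intro U hU
      have hU' := mem_powerset.mp hU
      have e1 : ∏ i ∈ T \ U, (-(0 : ℤ) ^ d i) = (-1) ^ (T.card - U.card) *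
          ∏ i ∈ T \ U, (0 : ℤ) ^ d i := by
        rw [← Finset.card_sdiff_of_subset hU', ← Finset.prod_const, ← Finset.prod_mul_distrib]
        exact Finset.prod_congr rfl fun i _ => by ring
      have e2 : ∏ i, (if i ∈ U then A i else 0) ^ d i =
          (∏ i ∈ Tᶜ, (0 : ℤ) ^ d i) * ((∏ i ∈ U, A i ^ d i) * ∏ i ∈ T \ U, (0 : ℤ) ^ d i) := by
        rw [← Finset.prod_mul_prod_compl T, mul_comm]
        congr 1
        · refine Finset.prod_congr rfl fun i hi => ?_
          rw [if_neg]
          intro h
          exact (Finset.mem_compl.mp hi) (hU' h)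
        · rw [← Finset.prod_sdiff hU', mul_comm]
          congr 1
          · exact Finset.prod_congr rfl fun i hi => by rw [if_pos hi]
          · exact Finset.prod_congr rfl fun i hi => by rw [if_neg (Finset.mem_sdiff.mp hi).2]
      rw [e1, e2]
      ring
    rw [Finset.sum_congr rfl h1, ← Finset.mul_sum, ← Finset.prod_add]
    by_cases hde : d = e
    · rw [if_pos hde]
      have h2 : ∏ i ∈ Tᶜ, (0 : ℤ) ^ d i = 1 := by
        refine Finset.prod_eq_one fun i hi => ?_
        rw [hde, he1, if_neg (Finset.mem_compl.mp hi), pow_zero]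
      rw [h2, one_mul]
      refine Finset.prod_congr rfl fun i hi => ?_
      rw [hde, he1, if_pos hi]
      ring
    · rw [if_neg hde]
      by_cases hz : ∃ t ∈ T, d t = 0
      · obtain ⟨t, ht, h0⟩ := hz
        have : ∏ i ∈ T, (A i ^ d i + -(0 : ℤ) ^ d i) = 0 := by
          refine Finset.prod_eq_zero ht ?_
          rw [h0]; ring
        rw [this, mul_zero]
      · exfalso
        push Not at hz
        apply hde
        have hdeg : ∑ i, d i ≤ T.card := by
          have := MvPolynomial.le_totalDegree hd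
          rw [Finsupp.sum_fintype _ _ (fun _ => rfl)] at this
          exact this.trans hP
        have h3 : T.card ≤ ∑ i ∈ T, d i := by
          calc T.card = ∑ i ∈ T, 1 := by simp
            _ ≤ ∑ i ∈ T, d i := Finset.sum_le_sum fun i hi => Nat.one_le_iff_ne_zero.mpr (hz i hi)
        have h4 : ∑ i ∈ T, d i + ∑ i ∈ Tᶜ, d i = ∑ i, d i := Finset.sum_add_sum_compl T _
        have h5 : ∑ i ∈ Tᶜ, d i = 0 := by omega
        have h6 : ∑ i ∈ T, d i = ∑ i ∈ T, 1 := by simp; omega
        ext i
        rw [he1]
        by_cases hi : i ∈ T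
        · rw [if_pos hi]
          have := (Finset.sum_eq_sum_iff_of_le
            (fun i hi => Nat.one_le_iff_ne_zero.mpr (hz i hi))).mp h6.symm i hi
          exact this.symm
        · rw [if_neg hi]
          exact (Finset.sum_eq_zero_iff.mp h5) i (Finset.mem_compl.mpr hi)
  unfold alt
  simp only [MvPolynomial.eval_eq', Finset.mul_sum]
  rw [Finset.sum_comm]
  have : ∀ d ∈ P.support, ∑ U ∈ T.powerset, (-1 : ℤ) ^ (T.card - U.card) *
      (P.coeff d * ∏ i, (if i ∈ U then A i else 0) ^ d i) =
      if d = e then P.coeff d * ∏ t ∈ T, A t else 0 := by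
    intro d hd
    rw [← mul_ite_zero, ← key d hd, Finset.mul_sum]
    exact Finset.sum_congr rfl fun U _ => by ring
  rw [Finset.sum_congr rfl this, Finset.sum_ite_eq' P.support e]
  split_ifs with h
  · ring
  · rw [MvPolynomial.notMem_support_iff.mp h, mul_zero]

end Pool.Agent.Q250.MZ
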