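import Pool.Agent.Q250.MZ.Basic

set_option autoImplicit false
set_option linter.unusedSectionVars false

/-!
Binomial coefficients modulo a prime.
-/

namespace Pool.Agent.Q250.MZ

open Finset Polynomial

variable {p : ℕ} [Fact p.Prime]

/-- below `p ^ s` only the lower digits matter -/
theorem choose_low (s N c i : ℕ) (hi : i < p ^ s) :
    ((p ^ s * N + c).choose i : ZMod p) = (c.choose i : ZMod p) := by
  have h1 : ((1 + X : (ZMod p)[X]) ^ (p ^ s * N + c)) =
      (1 + X ^ p ^ s) ^ N * (1 + X) ^ c := by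
    rw [pow_add, pow_mul, add_pow_char_pow, one_pow]
  obtain ⟨R, hR⟩ : ∃ R : (ZMod p)[X], (1 + X ^ p ^ s) ^ N = 1 + X ^ p ^ s * R := by
    have : (X ^ p ^ s : (ZMod p)[X]) ∣ (1 + X ^ p ^ s) ^ N - 1 ^ N := by
      refine dvd_trans ?_ (sub_dvd_pow_sub_pow _ _ N)
      simp
    obtain ⟨R, hR⟩ := this
    exact ⟨R, by rw [one_pow] at hR; rw [← hR]; ring⟩
  have h2 := congrArg (fun P => P.coeff i) h1
  simp only [coeff_one_add_X_pow] at h2
  rw [h2, hR, add_mul, one_mul, mul_assoc, coeff_add, coeff_X_pow_mul', if_neg (by omega),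
    add_zero, coeff_one_add_X_pow]

/-- `C(N + q - 1, q - 1)` detects the multiples of `q = p ^ r` -/
theorem choose_detect (r N : ℕ) :
    ((N + (p ^ r - 1)).choose (p ^ r - 1) : ZMod p) = if p ^ r ∣ N then 1 else 0 := by
  have hq : 0 < p ^ r := pow_pos (Fact.out : p.Prime).pos r
  have hlt : p ^ r - 1 < p ^ r := by omega
  have hN := Nat.div_add_mod N (p ^ r)
  by_cases h : p ^ r ∣ N
  · rw [if_pos h]
    obtain ⟨N', rfl⟩ := h
    rw [choose_low r N' _ _ hlt, Nat.choose_self, Nat.cast_one]
  · rw [if_neg h]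
    have h1 : N % p ^ r ≠ 0 := fun h' => h (Nat.dvd_of_mod_eq_zero h')
    have h2 := Nat.mod_lt N hq
    have h3 : N + (p ^ r - 1) = p ^ r * (N / p ^ r + 1) + (N % p ^ r - 1) := by
      rw [Nat.mul_add]; omega
    rw [h3, choose_low r _ _ _ hlt, Nat.choose_eq_zero_of_lt (by omega), Nat.cast_zero]

/-- the expansion in the upper digits -/
theorem choose_split (k B M a : ℕ) :
    ((B + p ^ k * M).choose a : ZMod p) =
      ∑ j ∈ range (a + 1), if p ^ k * j ≤ a then
        ((M.choose j : ZMod p)) * (B.choose (a - p ^ k * j) : ZMod p) else 0 := by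
  have hK : 0 < p ^ k := pow_pos (Fact.out : p.Prime).pos k
  have h1 : ((1 + X : (ZMod p)[X]) ^ (B + p ^ k * M)) =
      (1 + X ^ p ^ k) ^ M * (1 + X) ^ B := by
    rw [pow_add, pow_mul, add_pow_char_pow, one_pow, mul_comm]
  have h2 := congrArg (fun P => P.coeff a) h1
  simp only [coeff_one_add_X_pow] at h2
  rw [h2, add_comm (1 : (ZMod p)[X]), add_pow, Finset.sum_mul, Polynomial.finsetSum_coeff]
  have h3 : ∀ j ∈ range (M + 1), ((X ^ p ^ k) ^ j * 1 ^ (M - j) * (M.choose j : (ZMod p)[X]) *
      (1 + X) ^ B : (ZMod p)[X]).coeff a = if p ^ k * j ≤ a then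
        ((M.choose j : ZMod p)) * (B.choose (a - p ^ k * j) : ZMod p) else 0 := by
    intro j _
    have : ((X ^ p ^ k) ^ j * 1 ^ (M - j) * (M.choose j : (ZMod p)[X]) *
      (1 + X) ^ B : (ZMod p)[X]) = C (M.choose j : ZMod p) * (X ^ (p ^ k * j) * (1 + X) ^ B) := by
      rw [one_pow, mul_one, ← pow_mul, map_natCast]
      ring
    rw [this, coeff_C_mul, coeff_X_pow_mul']
    split_ifs with h
    · rw [coeff_one_add_X_pow]
    · rw [mul_zero]
  rw [Finset.sum_congr rfl h3]
  have h4 : ∀ n : ℕ, min M a ≤ n → ∑ j ∈ range (n + 1), (if p ^ k * j ≤ a then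
        ((M.choose j : ZMod p)) * (B.choose (a - p ^ k * j) : ZMod p) else 0) =
      ∑ j ∈ range (min M a + 1), (if p ^ k * j ≤ a then
        ((M.choose j : ZMod p)) * (B.choose (a - p ^ k * j) : ZMod p) else 0) := by
    intro n hn
    symm
    refine Finset.sum_subset (Finset.range_subset_range.mpr (by omega)) fun j hj hj' => ?_
    rw [Finset.mem_range] at hj hj'
    rcases le_or_gt M a with h | h
    · have : M < j := by omega
      rw [Nat.choose_eq_zero_of_lt this]
      simp
    · have : a < j := by omega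
      rw [if_neg]
      intro h5
      have : 1 * j ≤ p ^ k * j := Nat.mul_le_mul_right j hK
      omega
  rw [h4 M (min_le_left _ _), h4 a (min_le_right _ _)]

/-- the alternating sum of the indicator of the small subsets is not zero modulo `p` -/
theorem alt_small {ι : Type*} [DecidableEq ι] (s n : ℕ) (T : Finset ι)
    (hT : T.card = p ^ s * (n + 1)) :
    alt T (fun U => if U.card < p ^ s then (1 : ZMod p) else 0) ≠ 0 := by
  have hm : 0 < p ^ s := pow_pos (Fact.out : p.Prime).pos s
  obtain ⟨m, hm'⟩ : ∃ m, p ^ s = m + 1 := ⟨p ^ s - 1, by omega⟩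
  obtain ⟨t, ht⟩ : ∃ t, T.card = t + 1 := ⟨T.card - 1, by
    have : 0 < T.card := by rw [hT]; positivity
    omega⟩
  have e1 : alt T (fun U => if U.card < p ^ s then (1 : ZMod p) else 0) =
      (-1) ^ (t + 1) * ∑ j ∈ range (m + 1), ((-1) ^ j * ((t + 1).choose j : ZMod p)) := by
    rw [alt_card T (fun j => if j < p ^ s then (1 : ZMod p) else 0), ht, hm', Finset.mul_sum]
    have hle : m + 1 ≤ t + 1 + 1 := by
      have : p ^ s ≤ T.card := by rw [hT]; exact Nat.le_mul_of_pos_right _ (by omega)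
      omega
    symm
    refine Finset.sum_subset_zero_on_sdiff (Finset.range_subset_range.mpr hle) ?_ ?_
    · intro j hj
      rw [Finset.mem_sdiff, Finset.mem_range, Finset.mem_range] at hj
      rw [if_neg hj.2]
      ring
    · intro j hj
      rw [Finset.mem_range] at hj
      rw [if_pos hj]
      have : (-1 : ZMod p) ^ (t + 1) = (-1) ^ (t + 1 - j) * (-1) ^ j := by
        rw [← pow_add]; congr 1; omega
      have h2 : ((-1 : ZMod p) ^ j) * (-1) ^ j = 1 := by
        rw [← mul_pow]; simp
      rw [this]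
      linear_combination ((-1 : ZMod p) ^ (t + 1 - j) * ((t + 1).choose j : ZMod p)) * h2
  have e2 : ∑ j ∈ range (m + 1), ((-1) ^ j * ((t + 1).choose j : ZMod p)) =
      (-1) ^ m * (t.choose m : ZMod p) := by
    have := congrArg (fun z : ℤ => (z : ZMod p))
      (Int.alternating_sum_range_choose_eq_choose (n := t) (m := m))
    push_cast at this
    exact this
  have e3 : (t.choose m : ZMod p) = 1 := by
    have h1 : t = p ^ s * n + m := by
      have : p ^ s * (n + 1) = p ^ s * n + p ^ s := by ring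
      omega
    rw [h1, choose_low s n m m (by omega), Nat.choose_self, Nat.cast_one]
  rw [e1, e2, e3, mul_one]
  exact mul_ne_zero (pow_ne_zero _ (by simp)) (pow_ne_zero _ (by simp))

end Pool.Agent.Q250.MZ
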