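import Pool.Agent.Q250.MZ.Lift

set_option autoImplicit false
set_option linter.unusedSectionVars false

/-!
The classification of the extremal sequences.
-/

namespace Pool.Agent.Q250.MZ

open Finset

variable {p : ℕ} [Fact p.Prime] {ι : Type*} [DecidableEq ι] [Fintype ι]

/-- the sum over the `m`-subsets of `U` -/
def e {R : Type*} [CommRing R] (a : ι → R) (m : ℕ) (U : Finset ι) : R :=
  ∑ V ∈ U.powersetCard m, ∏ i ∈ V, a i

theorem free_of {s r : ℕ} [NeZero (p ^ r)] (a : ι → ZMod (p ^ r))
    (h : ∀ U : Finset ι, p ^ s ≤ U.card → e a (p ^ s) U ≠ 0) :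
    Free p s r (fun i => (a i).val) := by
  intro U hU hd
  apply h U hU
  have h1 := (ZMod.natCast_eq_zero_iff (E (fun i => (a i).val) (p ^ s) U) (p ^ r)).mpr hd
  rw [← h1]
  unfold E e
  push_cast
  exact Finset.sum_congr rfl fun V _ => Finset.prod_congr rfl fun i _ =>
    (ZMod.natCast_zmod_val (a i)).symm

theorem main_pos {s r : ℕ} (hr : 1 ≤ r) (hs : 1 ≤ s) [NeZero (p ^ r)] (a : ι → ZMod (p ^ r))
    (h : ∀ U : Finset ι, p ^ s ≤ U.card → e a (p ^ s) U ≠ 0)
    (hcard : Fintype.card ι = p ^ s * p ^ r - 1) :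
    ∃ c : ZMod (p ^ r), IsUnit c ∧ ∀ i, a i = c := by
  have hp := (Fact.out : p.Prime).two_le
  have hm : 2 ≤ p ^ s := by
    calc 2 ≤ p := hp
      _ = p ^ 1 := (pow_one p).symm
      _ ≤ p ^ s := Nat.pow_le_pow_right (by omega) hs
  have hq : 2 ≤ p ^ r := by
    calc 2 ≤ p := hp
      _ = p ^ 1 := (pow_one p).symm
      _ ≤ p ^ r := Nat.pow_le_pow_right (by omega) hr
  have hmq : 2 * 2 ≤ p ^ s * p ^ r := Nat.mul_le_mul hm hq
  have hne : Nonempty ι := Fintype.card_pos_iff.mp (by omega)
  obtain ⟨i₀⟩ := hne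
  obtain ⟨h1, -⟩ := step_one hr hs (free_of a h) hcard
  have hunit : IsUnit (a i₀) := by
    have h2 := h1 i₀
    rw [← ZMod.natCast_zmod_val (a i₀), ZMod.isUnit_iff_coprime]
    refine Nat.Coprime.pow_right _ ?_
    refine ((Fact.out : p.Prime).coprime_iff_not_dvd.mpr fun hd => ?_).symm
    exact h2 ((ZMod.natCast_eq_zero_iff _ _).mpr hd)
  obtain ⟨u, hu⟩ := hunit
  refine ⟨a i₀, ⟨u, hu⟩, ?_⟩
  set a' : ι → ZMod (p ^ r) := fun i => (u⁻¹ : (ZMod (p ^ r))ˣ) * a i with ha'
  have hone : a' i₀ = 1 := by rw [ha']; simp [← hu]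
  have hfree' : ∀ U : Finset ι, p ^ s ≤ U.card → e a' (p ^ s) U ≠ 0 := by
    intro U hU h0
    apply h U hU
    have h2 : e a' (p ^ s) U = ((u⁻¹ : (ZMod (p ^ r))ˣ) : ZMod (p ^ r)) ^ (p ^ s) *
        e a (p ^ s) U := by
      unfold e
      rw [Finset.mul_sum]
      refine Finset.sum_congr rfl fun V hV => ?_
      rw [ha', Finset.prod_mul_distrib, Finset.prod_const, (Finset.mem_powersetCard.mp hV).2]
    rw [h2] at h0
    have h3 : IsUnit (((u⁻¹ : (ZMod (p ^ r))ˣ) : ZMod (p ^ r)) ^ (p ^ s)) :=
      (Units.isUnit _).pow _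
    exact (h3.mul_right_eq_zero).mp h0
  have hF := free_of a' hfree'
  have : Fact (1 < p ^ r) := ⟨by omega⟩
  have hval1 : (a' i₀).val = 1 := by rw [hone, ZMod.val_one]
  obtain ⟨-, h5⟩ := step_one hr hs hF hcard
  have claim : ∀ k, 1 ≤ k → k ≤ r → ∀ i, ∃ b, (a' i).val = 1 + p ^ k * b := by
    intro k hk
    induction k, hk using Nat.le_induction with
    | base =>
      intro _ i
      have h6 := h5 i i₀
      rw [hval1] at h6
      have h7 : 1 ≡ (a' i).val [MOD p] := by
        rw [← ZMod.natCast_eq_natCast_iff]; exact h6.symm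
      have h8 : 1 ≤ (a' i).val := by
        by_contra h9
        have h10 : (a' i).val = 0 := by omega
        rw [h10] at h6
        simp at h6
      obtain ⟨b, hb⟩ := (Nat.modEq_iff_dvd' h8).mp h7
      exact ⟨b, by rw [pow_one]; omega⟩
    | succ k hk ih =>
      intro hkr i
      have ih' := ih (by omega)
      choose b hb using ih'
      have hF' : Free p s r (fun i => 1 + p ^ k * b i) := by
        have : (fun i => (a' i).val) = fun i => 1 + p ^ k * b i := funext hb
        rw [← this]; exact hF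
      obtain ⟨c, hc⟩ := step_two hk (by omega) hF'
      have hK : 2 ≤ p ^ k := by
        calc 2 ≤ p := hp
          _ = p ^ 1 := (pow_one p).symm
          _ ≤ p ^ k := Nat.pow_le_pow_right (by omega) hk
      have hqK : p ^ k < p ^ r := Nat.pow_lt_pow_right (by omega) (by omega)
      have hK0 : 0 < p ^ k := by omega
      have hb0 : b i₀ = 0 := by
        have := hb i₀
        rw [hval1] at this
        have h9 : p ^ k * b i₀ = 0 := by omega
        exact (Nat.mul_eq_zero.mp h9).resolve_left (by omega)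
      have heq : (b i : ZMod p) = 0 := by
        by_cases hi : i = i₀
        · rw [hi, hb0, Nat.cast_zero]
        · have ht1 : 1 ≤ p ^ s * (p ^ r - p ^ k) := Nat.mul_pos (by omega) (by omega)
          have ht2 : p ^ s * (p ^ r - p ^ k) + p ^ s * p ^ k = p ^ s * p ^ r := by
            rw [← Nat.mul_add]; congr 1; omega
          have ht3 : 2 * 2 ≤ p ^ s * p ^ k := Nat.mul_le_mul hm hK
          obtain ⟨T₀, hT0, hi1, hi2⟩ := exists_swap hi (p ^ s * (p ^ r - p ^ k) - 1) (by omega)
          have c1 := hc (insert i T₀) (by rw [Finset.card_insert_of_notMem hi1]; omega)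
          have c2 := hc (insert i₀ T₀) (by rw [Finset.card_insert_of_notMem hi2]; omega)
          rw [Finset.sum_insert hi1] at c1
          rw [Finset.sum_insert hi2, hb0, Nat.cast_zero, zero_add] at c2
          rw [c2] at c1
          simpa using c1
      obtain ⟨b', hb'⟩ := (ZMod.natCast_eq_zero_iff _ _).mp heq
      exact ⟨b', by rw [hb i, hb', pow_succ]; ring⟩
  intro i
  obtain ⟨b, hb⟩ := claim r hr le_rfl i
  have hlt := ZMod.val_lt (a' i)
  have hb0 : b = 0 := by
    by_contra h0
    have : p ^ r * 1 ≤ p ^ r * b := Nat.mul_le_mul_left _ (Nat.one_le_iff_ne_zero.mpr h0)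
    omega
  have h6 : a' i = 1 := by
    rw [← ZMod.natCast_zmod_val (a' i), hb, hb0]
    simp
  have h7 : a i = u * a' i := by
    rw [ha']; simp
  rw [h7, h6, mul_one, hu]

/-- the classical case of `m = 1`: the set of the subset sums grows -/
theorem grow {n : ℕ} (a : ι → ZMod n) (h : ∀ U : Finset ι, 1 ≤ U.card → ∑ i ∈ U, a i ≠ 0)
    (U : Finset ι) (x : ι) (hx : x ∉ U) :
    (U.powerset.image fun V => ∑ i ∈ V, a i).card + 1 ≤
      ((insert x U).powerset.image fun V => ∑ i ∈ V, a i).card := by
  classical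
  set S := U.powerset.image fun V => ∑ i ∈ V, a i with hS
  set S' := (insert x U).powerset.image fun V => ∑ i ∈ V, a i with hS'
  have hsub : S ⊆ S' :=
    Finset.image_subset_image (Finset.powerset_mono.mpr (Finset.subset_insert _ _))
  have hshift : ∀ y ∈ S, a x + y ∈ S' := by
    intro y hy
    rw [hS, Finset.mem_image] at hy
    obtain ⟨V, hV, rfl⟩ := hy
    rw [hS', Finset.mem_image]
    refine ⟨insert x V, ?_, ?_⟩
    · rw [Finset.mem_powerset] at hV ⊢
      exact Finset.insert_subset_insert _ hV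
    · rw [Finset.sum_insert]
      intro h'
      exact hx (Finset.mem_powerset.mp hV h')
  have hlt : S ⊂ S' := by
    refine Finset.ssubset_iff_subset_ne.mpr ⟨hsub, fun heq => ?_⟩
    have h1 : S.image (fun y => a x + y) ⊆ S := by
      intro z hz
      obtain ⟨y, hy, rfl⟩ := Finset.mem_image.mp hz
      rw [heq]; exact hshift y hy
    have h2 : S.image (fun y => a x + y) = S := by
      refine Finset.eq_of_subset_of_card_le h1 ?_
      rw [Finset.card_image_of_injective _ (add_right_injective (a x))]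
    have h3 : (0 : ZMod n) ∈ S := by
      rw [hS, Finset.mem_image]
      exact ⟨∅, by simp, by simp⟩
    rw [← h2, Finset.mem_image] at h3
    obtain ⟨y, hy, hy0⟩ := h3
    rw [hS, Finset.mem_image] at hy
    obtain ⟨V, hV, rfl⟩ := hy
    have hxV : x ∉ V := fun h' => hx (Finset.mem_powerset.mp hV h')
    apply h (insert x V) (by rw [Finset.card_insert_of_notMem hxV]; omega)
    rw [Finset.sum_insert hxV]
    exact hy0
  exact Finset.card_lt_card hlt

theorem grow_all {n : ℕ} (a : ι → ZMod n) (h : ∀ U : Finset ι, 1 ≤ U.card → ∑ i ∈ U, a i ≠ 0)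
    (U₀ W : Finset ι) (hd : Disjoint U₀ W) :
    (U₀.powerset.image fun V => ∑ i ∈ V, a i).card + W.card ≤
      ((U₀ ∪ W).powerset.image fun V => ∑ i ∈ V, a i).card := by
  induction W using Finset.induction_on with
  | empty => simp
  | insert x W hx ih =>
    rw [Finset.disjoint_insert_right] at hd
    have h1 := ih hd.2
    have h2 := grow a h (U₀ ∪ W) x (by
      rw [Finset.mem_union]; push Not; exact ⟨hd.1, hx⟩)
    rw [Finset.card_insert_of_notMem hx, Finset.union_insert]
    omega

theorem main_zero {r : ℕ} (hr : 1 ≤ r) [NeZero (p ^ r)] (a : ι → ZMod (p ^ r))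
    (h : ∀ U : Finset ι, 1 ≤ U.card → ∑ i ∈ U, a i ≠ 0)
    (hcard : Fintype.card ι = p ^ r - 1) :
    ∃ c : ZMod (p ^ r), IsUnit c ∧ ∀ i, a i = c := by
  have hp := (Fact.out : p.Prime).two_le
  have hq : 2 ≤ p ^ r := by
    calc 2 ≤ p := hp
      _ = p ^ 1 := (pow_one p).symm
      _ ≤ p ^ r := Nat.pow_le_pow_right (by omega) hr
  have hne : Nonempty ι := Fintype.card_pos_iff.mp (by omega)
  obtain ⟨i₀⟩ := hne
  have hall : ∀ i j, a i = a j := by
    intro i j
    by_contra hij
    have hne' : i ≠ j := fun h' => hij (by rw [h'])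
    have hdj : Disjoint ({i, j} : Finset ι) ({i, j}ᶜ) := disjoint_compl_right
    have h1 := grow_all a h {i, j} {i, j}ᶜ hdj
    have hc2 : ({i, j} : Finset ι).card = 2 := Finset.card_pair hne'
    have h2 : ({i, j}ᶜ : Finset ι).card = p ^ r - 1 - 2 := by
      rw [Finset.card_compl, hc2, hcard]
    have h3 : 2 ≤ p ^ r - 1 := by
      rw [← hcard, ← hc2]; exact Finset.card_le_univ _
    have hi0 : a i ≠ 0 := by
      have := h {i} (by simp)
      simpa using this
    have hj0 : a j ≠ 0 := by
      have := h {j} (by simp)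
      simpa using this
    have hij0 : a i + a j ≠ 0 := by
      have := h {i, j} (by rw [hc2]; omega)
      rwa [Finset.sum_pair hne'] at this
    have h4 : 4 ≤ (({i, j} : Finset ι).powerset.image fun V => ∑ i ∈ V, a i).card := by
      have hsub : ({0, a i, a j, a i + a j} : Finset (ZMod (p ^ r))) ⊆
          (({i, j} : Finset ι).powerset.image fun V => ∑ i ∈ V, a i) := by
        intro z hz
        simp only [Finset.mem_insert, Finset.mem_singleton] at hz
        rw [Finset.mem_image]
        rcases hz with rfl | rfl | rfl | rfl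
        · exact ⟨∅, by simp, by simp⟩
        · exact ⟨{i}, by simp, by simp⟩
        · exact ⟨{j}, by simp, by simp⟩
        · exact ⟨{i, j}, by simp, by rw [Finset.sum_pair hne']⟩
      refine le_trans ?_ (Finset.card_le_card hsub)
      rw [Finset.card_insert_of_notMem, Finset.card_insert_of_notMem, Finset.card_insert_of_notMem,
        Finset.card_singleton]
      · rw [Finset.mem_singleton]
        intro h'
        apply hi0
        have h'' : a j + 0 = a j + a i := by rw [add_zero, add_comm]; exact h'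
        exact (add_left_cancel h'').symm
      · simp only [Finset.mem_insert, Finset.mem_singleton]
        push Not
        refine ⟨hij, fun h' => hj0 ?_⟩
        have h'' : a i + 0 = a i + a j := by rw [add_zero]; exact h'
        exact (add_left_cancel h'').symm
      · simp only [Finset.mem_insert, Finset.mem_singleton]
        push Not
        exact ⟨hi0.symm, hj0.symm, hij0.symm⟩
    have h5 : (({i, j} ∪ {i, j}ᶜ : Finset ι).powerset.image fun V => ∑ i ∈ V, a i).card ≤
        p ^ r := by
      refine (Finset.card_le_univ _).trans ?_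
      rw [ZMod.card]
    omega
  refine ⟨a i₀, ?_, fun i => hall i i₀⟩
  rw [← ZMod.natCast_zmod_val (a i₀), ZMod.isUnit_iff_coprime]
  refine Nat.Coprime.pow_right _ ?_
  refine ((Fact.out : p.Prime).coprime_iff_not_dvd.mpr fun hd => ?_).symm
  have hle : p ^ (r - 1) ≤ (Finset.univ : Finset ι).card := by
    rw [Finset.card_univ, hcard]
    have h1 : p ^ (r - 1) < p ^ r := Nat.pow_lt_pow_right (by omega) (by omega)
    omega
  obtain ⟨U, -, hU⟩ := Finset.exists_subset_card_eq hle
  apply h U (by rw [hU]; exact Nat.one_le_pow _ _ (by omega))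
  rw [Finset.sum_congr rfl fun i _ => hall i i₀, Finset.sum_const, hU, nsmul_eq_mul,
    ← ZMod.natCast_zmod_val (a i₀), ← Nat.cast_mul, ZMod.natCast_eq_zero_iff]
  have h1 : p ^ r = p ^ (r - 1) * p := by
    rw [← pow_succ]; congr 1; omega
  obtain ⟨c, hc⟩ := hd
  refine ⟨c, ?_⟩
  rw [hc, ← mul_assoc, ← h1]

end Pool.Agent.Q250.MZ
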