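import Pool.Agent.Q250.MZ.Step

set_option autoImplicit false
set_option linter.unusedSectionVars false

/-!
The value of the coefficient in the middle degrees.
-/

namespace Pool.Agent.Q250.MZ

open Finset

variable {ι : Type*} [DecidableEq ι]

theorem alt_shift {R : Type*} [CommRing R] {T V : Finset ι} (hV : V ⊆ T) (f : Finset ι → R) :
    alt T (fun U => if V ⊆ U then f U else 0) = alt (T \ V) (fun W => f (W ∪ V)) := by
  unfold alt
  have : ∀ U ∈ T.powerset, ((-1 : R) ^ (T.card - U.card) * if V ⊆ U then f U else 0) =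
      if V ⊆ U then (-1 : R) ^ (T.card - U.card) * f U else 0 := by
    intro U _
    split_ifs <;> simp
  rw [Finset.sum_congr rfl this, ← Finset.sum_filter]
  refine Finset.sum_nbij' (fun U => U \ V) (fun W => W ∪ V) ?_ ?_ ?_ ?_ ?_
  · intro U hU
    simp only [Finset.mem_filter, Finset.mem_powerset] at hU ⊢
    exact Finset.sdiff_subset_sdiff hU.1 (Finset.Subset.refl V)
  · intro W hW
    simp only [Finset.mem_filter, Finset.mem_powerset] at hW ⊢
    exact ⟨Finset.union_subset (hW.trans Finset.sdiff_subset) hV, Finset.subset_union_right⟩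
  · intro U hU
    simp only [Finset.mem_filter, Finset.mem_powerset] at hU
    exact Finset.sdiff_union_of_subset hU.2
  · intro W hW
    rw [Finset.mem_powerset] at hW
    have hd : Disjoint W V := Finset.disjoint_of_subset_left hW Finset.sdiff_disjoint
    rw [Finset.union_sdiff_right, Finset.sdiff_eq_self_of_disjoint hd]
  · intro U hU
    simp only [Finset.mem_filter, Finset.mem_powerset] at hU
    have h1 := Finset.card_sdiff_of_subset hV
    have h2 := Finset.card_sdiff_of_subset hU.2
    have h3 := Finset.card_le_card hU.2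
    have h4 := Finset.card_le_card hU.1
    simp only []
    rw [Finset.sdiff_union_of_subset hU.2, h1, h2]
    congr 2
    omega

/-- the value of the alternating sum -/
theorem kappa (m n c : ℕ) (hm : 0 < m) :
    ∑ k ∈ range (m * n + 1), (((m * n).choose k : ℕ) : ℤ) * ((-1) ^ (m * n - k) *
      ((((k + m).choose m + c).choose n : ℕ) : ℤ)) = (Nat.uniformBell n m : ℤ) := by
  set B : Polynomial ℚ := Polynomial.C ((m.factorial : ℚ)⁻¹) * descPochhammer ℚ m +
    Polynomial.C (c : ℚ) with hB
  have hm0 : (m.factorial : ℚ) ≠ 0 := by exact_mod_cast Nat.factorial_ne_zero m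
  have hm1 : ((m.factorial : ℚ)⁻¹) ≠ 0 := inv_ne_zero hm0
  have hdB0 : (Polynomial.C ((m.factorial : ℚ)⁻¹) * descPochhammer ℚ m).natDegree = m := by
    rw [Polynomial.natDegree_C_mul hm1, descPochhammer_natDegree]
  have hdB : B.natDegree = m := by
    rw [hB, Polynomial.natDegree_add_C, hdB0]
  have hlB : B.leadingCoeff = (m.factorial : ℚ)⁻¹ := by
    rw [hB, Polynomial.leadingCoeff_add_of_degree_lt', Polynomial.leadingCoeff_mul,
      Polynomial.leadingCoeff_C, (monic_descPochhammer ℚ m).leadingCoeff, mul_one]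
    refine lt_of_le_of_lt Polynomial.degree_C_le ?_
    rw [← Polynomial.natDegree_pos_iff_degree_pos, hdB0]
    exact hm
  set G : Polynomial ℚ := (descPochhammer ℚ n).comp B with hG
  have hdG : G.natDegree = m * n := by
    rw [hG, Polynomial.natDegree_comp, descPochhammer_natDegree, hdB, mul_comm]
  have hlG : G.leadingCoeff = ((m.factorial : ℚ)⁻¹) ^ n := by
    rw [hG, Polynomial.leadingCoeff_comp (by rw [hdB]; omega), hlB,
      (monic_descPochhammer ℚ n).leadingCoeff, one_mul, descPochhammer_natDegree]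
  have hev : ∀ k : ℕ, G.eval (m + k : ℚ) = (n.factorial : ℚ) *
      ((((k + m).choose m + c).choose n : ℕ) : ℚ) := by
    intro k
    have e1 : B.eval (m + k : ℚ) = (((k + m).choose m + c : ℕ) : ℚ) := by
      rw [hB, Polynomial.eval_add, Polynomial.eval_mul, Polynomial.eval_C, Polynomial.eval_C]
      have : ((m : ℚ) + k) = ((k + m : ℕ) : ℚ) := by push_cast; ring
      rw [this, descPochhammer_eval_eq_descFactorial, Nat.descFactorial_eq_factorial_mul_choose]
      push_cast
      field_simp
    rw [hG, Polynomial.eval_comp, e1, descPochhammer_eval_eq_descFactorial,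
      Nat.descFactorial_eq_factorial_mul_choose]
    push_cast
    ring
  have h1 := congrFun (Polynomial.fwdDiff_iter_degree_eq_factorial G) (m : ℚ)
  rw [hdG, hlG, fwdDiff_iter_eq_sum_shift] at h1
  have h2 : (n.factorial : ℚ) * ∑ k ∈ range (m * n + 1), (((m * n).choose k : ℕ) : ℚ) *
      ((-1) ^ (m * n - k) * ((((k + m).choose m + c).choose n : ℕ) : ℚ)) =
      ((m.factorial : ℚ)⁻¹) ^ n * ((m * n).factorial : ℚ) := by
    rw [Finset.mul_sum]
    have h3 : ∀ k ∈ range (m * n + 1), (n.factorial : ℚ) * ((((m * n).choose k : ℕ) : ℚ) *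
      ((-1) ^ (m * n - k) * ((((k + m).choose m + c).choose n : ℕ) : ℚ))) =
      ((-1 : ℤ) ^ (m * n - k) * ((m * n).choose k : ℤ)) • Polynomial.eval ((m : ℚ) + k • 1) G := by
      intro k _
      rw [nsmul_eq_mul, mul_one, hev k, zsmul_eq_mul]
      push_cast
      ring
    rw [Finset.sum_congr rfl h3, h1]
    simp
  have h4 := Nat.uniformBell_mul_eq n (n := m) (by omega)
  have h5 : (Nat.uniformBell n m : ℚ) * (m.factorial : ℚ) ^ n * (n.factorial : ℚ) =
      ((m * n).factorial : ℚ) := by
    rw [mul_comm m n]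
    exact_mod_cast h4
  have hn0 : (n.factorial : ℚ) ≠ 0 := by exact_mod_cast Nat.factorial_ne_zero n
  have h6 : (∑ k ∈ range (m * n + 1), (((m * n).choose k : ℕ) : ℚ) *
      ((-1) ^ (m * n - k) * ((((k + m).choose m + c).choose n : ℕ) : ℚ))) =
      (Nat.uniformBell n m : ℚ) := by
    refine mul_left_cancel₀ hn0 ?_
    rw [h2, ← h5, inv_pow]
    field_simp
  exact_mod_cast h6

theorem bell_mod {p : ℕ} [Fact p.Prime] (s n : ℕ) :
    ((Nat.uniformBell n (p ^ s) : ℕ) : ZMod p) = 1 := by
  have hm : 0 < p ^ s := pow_pos (Fact.out : p.Prime).pos s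
  rw [Nat.uniformBell_eq, Nat.cast_prod]
  refine Finset.prod_eq_one fun j _ => ?_
  have : j * p ^ s + p ^ s - 1 = p ^ s * j + (p ^ s - 1) := by
    rw [mul_comm]; omega
  rw [this, choose_low s j _ _ (by omega), Nat.choose_self, Nat.cast_one]

/-- the number of the subsets containing a given element -/
theorem sum_through {R : Type*} [CommRing R] (b : ι → R) (m : ℕ) (T : Finset ι) (hm : 0 < m) :
    ∑ V ∈ T.powersetCard m, ∑ i ∈ V, b i =
      ((T.card - 1).choose (m - 1) : R) * ∑ i ∈ T, b i := by
  have h1 : ∀ V ∈ T.powersetCard m, ∑ i ∈ V, b i = ∑ i ∈ T, if i ∈ V then b i else 0 := by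
    intro V hV
    rw [← Finset.sum_filter]
    refine Finset.sum_congr ?_ fun _ _ => rfl
    ext i
    simp only [Finset.mem_filter]
    exact ⟨fun h => ⟨(Finset.mem_powersetCard.mp hV).1 h, h⟩, fun h => h.2⟩
  rw [Finset.sum_congr rfl h1, Finset.sum_comm, Finset.mul_sum]
  refine Finset.sum_congr rfl fun i hi => ?_
  rw [← Finset.sum_filter, Finset.sum_const, nsmul_eq_mul]
  congr 2
  have : (T.powersetCard m).filter (fun V => i ∈ V) =
      ((T.erase i).powersetCard (m - 1)).image (insert i) := by
    ext V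
    simp only [Finset.mem_filter, Finset.mem_powersetCard, Finset.mem_image]
    constructor
    · rintro ⟨⟨h1, h2⟩, h3⟩
      refine ⟨V.erase i, ⟨Finset.erase_subset_erase i h1, ?_⟩, Finset.insert_erase h3⟩
      rw [Finset.card_erase_of_mem h3, h2]
    · rintro ⟨V', ⟨h1, h2⟩, rfl⟩
      have h3 : i ∉ V' := fun h => (Finset.mem_erase.mp (h1 h)).1 rfl
      refine ⟨⟨Finset.insert_subset hi (h1.trans (Finset.erase_subset _ _)), ?_⟩,
        Finset.mem_insert_self _ _⟩
      rw [Finset.card_insert_of_notMem h3, h2]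
      omega
  rw [this, Finset.card_image_of_injOn, Finset.card_powersetCard, Finset.card_erase_of_mem hi]
  intro V hV V' hV' he
  rw [Finset.mem_coe, Finset.mem_powersetCard] at hV hV'
  have h3 : i ∉ V := fun h => (Finset.mem_erase.mp (hV.1 h)).1 rfl
  have h4 : i ∉ V' := fun h => (Finset.mem_erase.mp (hV'.1 h)).1 rfl
  have h5 : (insert i V).erase i = (insert i V').erase i := congrArg (fun Z => Z.erase i) he
  rwa [Finset.erase_insert h3, Finset.erase_insert h4] at h5

end Pool.Agent.Q250.MZ
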