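import Pool.Agent.Q250.MZ.Kappa

set_option autoImplicit false
set_option linter.unusedSectionVars false

/-!
The two steps: all terms are congruent modulo `p`, and then modulo `p ^ k` for all `k`.
-/

namespace Pool.Agent.Q250.MZ

open Finset

variable {p : ℕ} [Fact p.Prime] {ι : Type*} [DecidableEq ι] [Fintype ι]

/-- the sequence is `m`-zero free, `m = p ^ s`, over the integers modulo `p ^ r` -/
def Free (p s r : ℕ) (A : ι → ℕ) : Prop :=
  ∀ U : Finset ι, p ^ s ≤ U.card → ¬ p ^ r ∣ E A (p ^ s) U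

theorem Free.choose {s r : ℕ} {A : ι → ℕ} (h : Free p s r A) (U : Finset ι) :
    ((E A (p ^ s) U + (p ^ r - 1)).choose (p ^ r - 1) : ZMod p) =
      if U.card < p ^ s then 1 else 0 := by
  rw [choose_detect]
  by_cases hU : U.card < p ^ s
  · rw [if_pos hU, E_small A _ U hU, if_pos (dvd_zero _)]
  · rw [if_neg hU, if_neg (h U (by omega))]

/-- two elements can be exchanged in sets of a given size -/
theorem exists_swap {i j : ι} (hij : i ≠ j) (t : ℕ) (ht : t + 2 ≤ Fintype.card ι) :
    ∃ T₀ : Finset ι, T₀.card = t ∧ i ∉ T₀ ∧ j ∉ T₀ := by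
  have h1 : t ≤ ((univ.erase i).erase j).card := by
    rw [Finset.card_erase_of_mem (Finset.mem_erase.mpr ⟨hij.symm, Finset.mem_univ _⟩),
      Finset.card_erase_of_mem (Finset.mem_univ _), Finset.card_univ]
    omega
  obtain ⟨T₀, hT, hc⟩ := Finset.exists_subset_card_eq h1
  refine ⟨T₀, hc, fun h => ?_, fun h => ?_⟩
  · have := hT h
    simp at this
  · have := hT h
    simp at this

/-- the first step -/
theorem step_one {s r : ℕ} (hr : 1 ≤ r) (hs : 1 ≤ s) {A : ι → ℕ} (h : Free p s r A)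
    (hcard : Fintype.card ι = p ^ s * p ^ r - 1) :
    (∀ i, (A i : ZMod p) ≠ 0) ∧ ∀ i j, (A i : ZMod p) = A j := by
  have hp := (Fact.out : p.Prime).two_le
  have hm : 2 ≤ p ^ s := by
    calc 2 ≤ p := hp
      _ = p ^ 1 := (pow_one p).symm
      _ ≤ p ^ s := Nat.pow_le_pow_right (by omega) hs
  have hq : 2 ≤ p ^ r := by
    calc 2 ≤ p := hp
      _ = p ^ 1 := (pow_one p).symm
      _ ≤ p ^ r := Nat.pow_le_pow_right (by omega) hr
  obtain ⟨n, hn⟩ : ∃ n, p ^ r - 1 = n + 1 := ⟨p ^ r - 2, by omega⟩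
  have hq' : p ^ r = n + 2 := by omega
  have hlen : p ^ s * p ^ r = p ^ s * (n + 1) + p ^ s := by rw [hq']; ring
  have hpos : 2 ≤ p ^ s * (n + 1) := by nlinarith
  -- the coefficients
  set κ : ℕ → ZMod p := fun t => ∑ j ∈ range (t + 1), (t.choose j : ZMod p) *
    ((-1) ^ (t - j) * (((j.choose (p ^ s) + (n + 1)).choose (n + 1) : ℕ) : ZMod p)) with hκ
  set H : ℕ → ZMod p := fun t => ∑ j ∈ range (t + 1), (t.choose j : ZMod p) *
    ((-1) ^ (t - j) * (if j < p ^ s then (1 : ZMod p) else 0)) with hH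
  have main : ∀ T : Finset ι, T.card = p ^ s * (n + 1) →
      (∏ t ∈ T, (A t : ZMod p)) * κ (p ^ s * (n + 1)) = H (p ^ s * (n + 1)) ∧
        H (p ^ s * (n + 1)) ≠ 0 := by
    intro T hT
    have h1 := congrArg (fun z : ℤ => (z : ZMod p)) (top A (p ^ s) (n + 1) T hT)
    simp only [Int.cast_mul, Int.cast_prod, Int.cast_natCast, alt_cast] at h1
    have h2 : alt T (fun U => (((E A (p ^ s) U + (n + 1)).choose (n + 1) : ℕ) : ZMod p)) =
        H (p ^ s * (n + 1)) := by
      rw [alt_congr (g := fun U => if U.card < p ^ s then (1 : ZMod p) else 0)]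
      · rw [alt_card T (fun j => if j < p ^ s then (1 : ZMod p) else 0), hT]
      · intro U _
        have := h.choose U
        rw [hn] at this
        exact this
    have h3 : alt T (fun U => (((U.card.choose (p ^ s) + (n + 1)).choose (n + 1) : ℕ) : ZMod p)) =
        κ (p ^ s * (n + 1)) := by
      rw [alt_card T (fun j => (((j.choose (p ^ s) + (n + 1)).choose (n + 1) : ℕ) : ZMod p)), hT]
    rw [h2, h3] at h1
    refine ⟨h1.symm, ?_⟩
    have h4 := alt_small (p := p) s n T hT
    rw [alt_card T (fun j => if j < p ^ s then (1 : ZMod p) else 0), hT] at h4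
    exact h4
  have pair : ∀ i j, i ≠ j → (A i : ZMod p) ≠ 0 ∧ (A i : ZMod p) = A j := by
    intro i j hij
    obtain ⟨T₀, hc, hi, hj⟩ := exists_swap hij (p ^ s * (n + 1) - 1) (by omega)
    have c1 : (insert i T₀).card = p ^ s * (n + 1) := by
      rw [Finset.card_insert_of_notMem hi, hc]; omega
    have c2 : (insert j T₀).card = p ^ s * (n + 1) := by
      rw [Finset.card_insert_of_notMem hj, hc]; omega
    obtain ⟨m1, m0⟩ := main _ c1
    obtain ⟨m2, -⟩ := main _ c2
    rw [Finset.prod_insert hi] at m1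
    rw [Finset.prod_insert hj] at m2
    have hne : (A i : ZMod p) * (∏ t ∈ T₀, (A t : ZMod p)) * κ (p ^ s * (n + 1)) ≠ 0 := by
      rw [m1]; exact m0
    have hκ0 : κ (p ^ s * (n + 1)) ≠ 0 := right_ne_zero_of_mul hne
    have hP0 : (∏ t ∈ T₀, (A t : ZMod p)) ≠ 0 := right_ne_zero_of_mul (left_ne_zero_of_mul hne)
    refine ⟨left_ne_zero_of_mul (left_ne_zero_of_mul hne), ?_⟩
    have := m1.trans m2.symm
    exact mul_right_cancel₀ hP0 (mul_right_cancel₀ hκ0 this)
  refine ⟨fun i => ?_, fun i j => ?_⟩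
  · obtain ⟨j, hj⟩ : ∃ j, i ≠ j := by
      have : 1 < Fintype.card ι := by omega
      obtain ⟨j, hj⟩ := Fintype.exists_ne_of_one_lt_card this i
      exact ⟨j, hj.symm⟩
    exact (pair i j hj).1
  · by_cases hij : i = j
    · rw [hij]
    · exact (pair i j hij).2

theorem exists_beta (k : ℕ) (hk : 1 ≤ k) (b : ι → ℕ) (V : Finset ι) :
    ∃ β : ℕ, ∏ i ∈ V, (1 + p ^ k * b i) = 1 + p ^ k * β ∧ (β : ZMod p) = ∑ i ∈ V, (b i : ZMod p) := by
  induction V using Finset.induction_on with
  | empty => exact ⟨0, by simp, by simp⟩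
  | insert a V ha ih =>
    obtain ⟨β, h1, h2⟩ := ih
    refine ⟨b a + β + p ^ k * (b a * β), ?_, ?_⟩
    · rw [Finset.prod_insert ha, h1]; ring
    · rw [Finset.sum_insert ha, ← h2]
      push_cast
      rw [ZMod.natCast_self, zero_pow (by omega)]
      ring

/-- the second step -/
theorem step_two {s r k : ℕ} (hk : 1 ≤ k) (hkr : k < r) {b : ι → ℕ}
    (h : Free p s r (fun i => 1 + p ^ k * b i)) :
    ∃ c : ZMod p, ∀ T : Finset ι, T.card = p ^ s * (p ^ r - p ^ k) →
      ∑ i ∈ T, (b i : ZMod p) = c := by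
  have hp := (Fact.out : p.Prime).two_le
  have hm : 1 ≤ p ^ s := Nat.one_le_pow _ _ (by omega)
  have hK : 2 ≤ p ^ k := by
    calc 2 ≤ p := hp
      _ = p ^ 1 := (pow_one p).symm
      _ ≤ p ^ k := Nat.pow_le_pow_right (by omega) hk
  have hqK : 2 * p ^ k ≤ p ^ r := by
    calc 2 * p ^ k ≤ p * p ^ k := Nat.mul_le_mul_right _ hp
      _ = p ^ (k + 1) := by ring
      _ ≤ p ^ r := Nat.pow_le_pow_right (by omega) hkr
  obtain ⟨n, hn⟩ : ∃ n, p ^ r - 1 - p ^ k = n := ⟨_, rfl⟩
  have hn' : p ^ r - p ^ k = n + 1 := by omega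
  choose β hβ1 hβ2 using fun V => exists_beta (p := p) k hk b V
  set m := p ^ s with hmdef
  set t := m * (n + 1) with ht
  refine ⟨(∑ j ∈ range (t + 1), (t.choose j : ZMod p) *
      ((-1) ^ (t - j) * (if j < m then (1 : ZMod p) else 0))) -
      ∑ j ∈ range (t + 1), (t.choose j : ZMod p) * ((-1) ^ (t - j) *
        (((j.choose m + (p ^ r - 1)).choose (p ^ r - 1) : ℕ) : ZMod p)), ?_⟩
  intro T hT
  rw [hn'] at hT
  -- the value of the sum
  have hE : ∀ U : Finset ι, E (fun i => 1 + p ^ k * b i) m U =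
      U.card.choose m + p ^ k * ∑ V ∈ U.powersetCard m, β V := by
    intro U
    unfold E
    rw [Finset.sum_congr rfl fun V _ => hβ1 V, Finset.sum_add_distrib, ← Finset.mul_sum]
    simp
  have e1 : alt T (fun U => if U.card < m then (1 : ZMod p) else 0) =
      ∑ j ∈ range (p ^ r - 1 + 1), alt T (fun U => if p ^ k * j ≤ p ^ r - 1 then
        (((∑ V ∈ U.powersetCard m, β V).choose j : ℕ) : ZMod p) *
        (((U.card.choose m + (p ^ r - 1)).choose (p ^ r - 1 - p ^ k * j) : ℕ) : ZMod p) else 0) := by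
    rw [← alt_sum]
    refine alt_congr fun U _ => ?_
    have h1 := h.choose U
    rw [← hmdef, hE U] at h1
    rw [← h1]
    have h2 := choose_split (p := p) k (U.card.choose m + (p ^ r - 1))
      (∑ V ∈ U.powersetCard m, β V) (p ^ r - 1)
    rw [← h2]
    congr 2
    ring
  have e2 : ∀ j ∈ range (p ^ r - 1 + 1), j ≠ 0 → j ≠ 1 →
      alt T (fun U => if p ^ k * j ≤ p ^ r - 1 then
        (((∑ V ∈ U.powersetCard m, β V).choose j : ℕ) : ZMod p) *
        (((U.card.choose m + (p ^ r - 1)).choose (p ^ r - 1 - p ^ k * j) : ℕ) : ZMod p) else 0) =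
      0 := by
    intro j _ hj0 hj1
    by_cases hle : p ^ k * j ≤ p ^ r - 1
    · have hlt : m * ((p ^ r - 1 - p ^ k * j) + j) < T.card := by
        rw [hT]
        refine Nat.mul_lt_mul_of_pos_left ?_ (by omega)
        obtain ⟨x, hx⟩ : ∃ x, p ^ k = x + 1 := ⟨p ^ k - 1, by omega⟩
        obtain ⟨y, hy⟩ : ∃ y, j = y + 2 := ⟨j - 2, by omega⟩
        have hxy : p ^ k * j = x * y + 2 * x + y + 2 := by rw [hx, hy]; ring
        have : x ≥ 1 := by omega
        have h0 : 0 ≤ x * y := Nat.zero_le _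
        omega
      have h3 := congrArg (fun z : ℤ => (z : ZMod p))
        (vanish β m (p ^ r - 1) (p ^ r - 1 - p ^ k * j) j T hlt)
      simp only [alt_cast, Int.cast_zero] at h3
      rw [← h3]
      refine alt_congr fun U _ => ?_
      rw [if_pos hle]
      push_cast
      ring
    · simp only [if_neg hle]
      unfold alt
      simp
  have e3 : alt T (fun U => if p ^ k * 1 ≤ p ^ r - 1 then
        (((∑ V ∈ U.powersetCard m, β V).choose 1 : ℕ) : ZMod p) *
        (((U.card.choose m + (p ^ r - 1)).choose (p ^ r - 1 - p ^ k * 1) : ℕ) : ZMod p) else 0) =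
      ∑ i ∈ T, (b i : ZMod p) := by
    have h1 : alt T (fun U => if p ^ k * 1 ≤ p ^ r - 1 then
        (((∑ V ∈ U.powersetCard m, β V).choose 1 : ℕ) : ZMod p) *
        (((U.card.choose m + (p ^ r - 1)).choose (p ^ r - 1 - p ^ k * 1) : ℕ) : ZMod p) else 0) =
        ∑ V ∈ T.powersetCard m, (β V : ZMod p) * alt T (fun U => if V ⊆ U then
          (((U.card.choose m + (p ^ r - 1)).choose n : ℕ) : ZMod p) else 0) := by
      have h2 : ∀ V ∈ T.powersetCard m, (β V : ZMod p) * alt T (fun U => if V ⊆ U then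
          (((U.card.choose m + (p ^ r - 1)).choose n : ℕ) : ZMod p) else 0) =
          alt T (fun U => (β V : ZMod p) * if V ⊆ U then
          (((U.card.choose m + (p ^ r - 1)).choose n : ℕ) : ZMod p) else 0) :=
        fun V _ => (alt_mul_left _ _ _).symm
      rw [Finset.sum_congr rfl h2, ← alt_sum]
      refine alt_congr fun U hU => ?_
      rw [if_pos (by omega), mul_one, hn, Nat.choose_one_right, Nat.cast_sum, Finset.sum_mul]
      refine (Finset.sum_subset_zero_on_sdiff (Finset.powersetCard_mono hU) ?_ ?_)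
      · intro V hV
        rw [Finset.mem_sdiff, Finset.mem_powersetCard, Finset.mem_powersetCard] at hV
        rw [if_neg (fun h => hV.2 ⟨h, hV.1.2⟩), mul_zero]
      · intro V hV
        rw [if_pos (Finset.mem_powersetCard.mp hV).1]
    rw [h1]
    have h3 : ∀ V ∈ T.powersetCard m, (β V : ZMod p) * alt T (fun U => if V ⊆ U then
          (((U.card.choose m + (p ^ r - 1)).choose n : ℕ) : ZMod p) else 0) =
          ∑ i ∈ V, (b i : ZMod p) := by
      intro V hV
      obtain ⟨hVT, hVc⟩ := Finset.mem_powersetCard.mp hV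
      rw [alt_shift hVT]
      have hd : (T \ V).card = m * n := by
        rw [Finset.card_sdiff_of_subset hVT, hT, hVc, Nat.mul_add, mul_one]
        omega
      have h4 : alt (T \ V) (fun W => (((((W ∪ V).card).choose m + (p ^ r - 1)).choose n : ℕ) :
          ZMod p)) = alt (T \ V) (fun W => (fun j => ((((j + m).choose m + (p ^ r - 1)).choose n : ℕ)
            : ZMod p)) W.card) := by
        refine alt_congr fun W hW => ?_
        rw [Finset.card_union_of_disjoint
          (Finset.disjoint_of_subset_left hW Finset.sdiff_disjoint), hVc]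
      rw [h4, alt_card (T \ V) (fun j => ((((j + m).choose m + (p ^ r - 1)).choose n : ℕ) : ZMod p)),
        hd]
      have h5 := congrArg (fun z : ℤ => (z : ZMod p)) (kappa m n (p ^ r - 1) (by omega))
      push_cast at h5
      push_cast
      rw [h5]
      have h6 := bell_mod (p := p) s n
      rw [← hmdef] at h6
      rw [h6, mul_one, hβ2]
    rw [Finset.sum_congr rfl h3, sum_through _ m T (by omega), hT]
    have h7 : (((t - 1).choose (m - 1) : ℕ) : ZMod p) = 1 := by
      have : t - 1 = p ^ s * n + (m - 1) := by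
        rw [ht, ← hmdef, Nat.mul_add]; omega
      rw [this, choose_low s n _ _ (by omega), Nat.choose_self, Nat.cast_one]
    rw [h7, one_mul]
  have h0mem : 0 ∈ range (p ^ r - 1 + 1) := by simp
  have h1mem : 1 ∈ (range (p ^ r - 1 + 1)).erase 0 := by
    rw [Finset.mem_erase, Finset.mem_range]; omega
  rw [← Finset.add_sum_erase _ _ h0mem, ← Finset.add_sum_erase _ _ h1mem] at e1
  have e4 : ∑ j ∈ ((range (p ^ r - 1 + 1)).erase 0).erase 1,
      alt T (fun U => if p ^ k * j ≤ p ^ r - 1 then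
        (((∑ V ∈ U.powersetCard m, β V).choose j : ℕ) : ZMod p) *
        (((U.card.choose m + (p ^ r - 1)).choose (p ^ r - 1 - p ^ k * j) : ℕ) : ZMod p) else 0) =
      0 := by
    refine Finset.sum_eq_zero fun j hj => ?_
    rw [Finset.mem_erase, Finset.mem_erase] at hj
    exact e2 j hj.2.2 hj.2.1 hj.1
  rw [e4, e3, add_zero] at e1
  have e5 : alt T (fun U => if p ^ k * 0 ≤ p ^ r - 1 then
        (((∑ V ∈ U.powersetCard m, β V).choose 0 : ℕ) : ZMod p) *
        (((U.card.choose m + (p ^ r - 1)).choose (p ^ r - 1 - p ^ k * 0) : ℕ) : ZMod p) else 0) =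
      alt T (fun U => (fun j => (((j.choose m + (p ^ r - 1)).choose (p ^ r - 1) : ℕ) : ZMod p))
        U.card) := by
    refine alt_congr fun U _ => ?_
    simp
  rw [e5, alt_card T (fun j => (((j.choose m + (p ^ r - 1)).choose (p ^ r - 1) : ℕ) : ZMod p)),
    alt_card T (fun j => if j < m then (1 : ZMod p) else 0), hT] at e1
  rw [ht, e1]
  ring

end Pool.Agent.Q250.MZ
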