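import Pool.Agent.Q250.MZ.Binom

set_option autoImplicit false
set_option linter.unusedSectionVars false

/-!
The elementary symmetric sums over the subsets, and the top coefficients.
-/

namespace Pool.Agent.Q250.MZ

open Finset

variable {ι : Type*} [DecidableEq ι]

/-- the elementary symmetric sum of degree `m` over `U` -/
def E (A : ι → ℕ) (m : ℕ) (U : Finset ι) : ℕ := ∑ V ∈ U.powersetCard m, ∏ i ∈ V, A i

theorem E_one (m : ℕ) (U : Finset ι) : E (fun _ => 1) m U = U.card.choose m := by
  simp [E]

theorem E_small (A : ι → ℕ) (m : ℕ) (U : Finset ι) (h : U.card < m) : E A m U = 0 := by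
  rw [E, Finset.powersetCard_eq_empty.mpr h, Finset.sum_empty]

/-- a sum of monomials -/
noncomputable def W [Fintype ι] (m : ℕ) (β : Finset ι → ℤ) : MvPolynomial ι ℤ :=
  ∑ V ∈ (univ : Finset ι).powersetCard m, MvPolynomial.C (β V) * ∏ i ∈ V, MvPolynomial.X i

theorem W_degree [Fintype ι] (m : ℕ) (β : Finset ι → ℤ) : (W m β).totalDegree ≤ m := by
  unfold W
  refine MvPolynomial.totalDegree_finsetSum_le fun V hV => ?_
  refine (MvPolynomial.totalDegree_mul _ _).trans ?_
  rw [MvPolynomial.totalDegree_C, zero_add]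
  refine (MvPolynomial.totalDegree_finsetProd _ _).trans ?_
  rw [Finset.sum_congr rfl fun i _ => MvPolynomial.totalDegree_X i]
  simp [(Finset.mem_powersetCard.mp hV).2]

theorem W_eval [Fintype ι] (m : ℕ) (β : Finset ι → ℤ) (A : ι → ℤ) (U : Finset ι) :
    MvPolynomial.eval (fun i => if i ∈ U then A i else 0) (W m β) =
      ∑ V ∈ U.powersetCard m, β V * ∏ i ∈ V, A i := by
  unfold W
  simp only [map_sum, map_mul, MvPolynomial.eval_C, map_prod, MvPolynomial.eval_X]
  symm
  refine Finset.sum_subset_zero_on_sdiff (Finset.powersetCard_mono (Finset.subset_univ U)) ?_ ?_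
  · intro V hV
    rw [Finset.mem_sdiff, Finset.mem_powersetCard, Finset.mem_powersetCard] at hV
    have : ¬ V ⊆ U := fun h => hV.2 ⟨h, hV.1.2⟩
    rw [Finset.not_subset] at this
    obtain ⟨i, hi, hi'⟩ := this
    rw [Finset.prod_eq_zero hi (by rw [if_neg hi']), mul_zero]
  · intro V hV
    congr 1
    refine Finset.prod_congr rfl fun i hi => ?_
    rw [if_pos ((Finset.mem_powersetCard.mp hV).1 hi)]

theorem asc_cast (e n : ℕ) :
    ((n.factorial * (e + n).choose n : ℕ) : ℤ) = ∏ i ∈ range n, ((e : ℤ) + (1 + i)) := by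
  rw [← Nat.ascFactorial_eq_factorial_mul_choose, Nat.ascFactorial_eq_prod_range]
  push_cast
  exact Finset.prod_congr rfl fun i _ => by ring

/-- the top coefficient for the sequence `A` -/
theorem top [Fintype ι] (A : ι → ℕ) (m n : ℕ) (T : Finset ι) (hT : T.card = m * n) :
    alt T (fun U => (((E A m U + n).choose n : ℕ) : ℤ)) =
      (∏ t ∈ T, (A t : ℤ)) * alt T (fun U => (((U.card.choose m + n).choose n : ℕ) : ℤ)) := by
  set Q : MvPolynomial ι ℤ := ∏ i ∈ range n, (W m (fun _ => 1) + MvPolynomial.C (1 + (i : ℤ)))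
    with hQ
  have hdeg : Q.totalDegree ≤ T.card := by
    rw [hQ, hT]
    refine (MvPolynomial.totalDegree_finsetProd _ _).trans ?_
    calc ∑ i ∈ range n, (W m (fun _ => 1) + MvPolynomial.C (1 + (i : ℤ)) :
          MvPolynomial ι ℤ).totalDegree ≤ ∑ i ∈ range n, m := by
          refine Finset.sum_le_sum fun i _ => ?_
          refine (MvPolynomial.totalDegree_add _ _).trans ?_
          rw [MvPolynomial.totalDegree_C]
          exact max_le (W_degree m _) (Nat.zero_le _)
      _ = m * n := by rw [Finset.sum_const, Finset.card_range, smul_eq_mul, mul_comm]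
  have key : ∀ B : ι → ℕ, (n.factorial : ℤ) *
      alt T (fun U => (((E B m U + n).choose n : ℕ) : ℤ)) =
      (∏ t ∈ T, (B t : ℤ)) * Q.coeff (∑ t ∈ T, Finsupp.single t 1) := by
    intro B
    rw [← alt_eval (fun i => (B i : ℤ)) Q T hdeg, ← alt_mul_left]
    refine alt_congr fun U _ => ?_
    rw [← Nat.cast_mul, asc_cast, hQ, map_prod]
    refine Finset.prod_congr rfl fun i _ => ?_
    rw [map_add, MvPolynomial.eval_C, W_eval]
    congr 1
    unfold E
    push_cast
    exact Finset.sum_congr rfl fun V _ => by rw [one_mul]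
  have hn : (n.factorial : ℤ) ≠ 0 := by exact_mod_cast Nat.factorial_ne_zero n
  have h1 := key A
  have h2 := key (fun _ => 1)
  simp only [E_one, Nat.cast_one, Finset.prod_const_one, one_mul] at h2
  refine mul_left_cancel₀ hn ?_
  rw [h1, ← h2]
  ring

/-- products of low degree have no top coefficient -/
theorem vanish [Fintype ι] (β : Finset ι → ℕ) (m c a j : ℕ) (T : Finset ι)
    (hT : m * (a + j) < T.card) :
    alt T (fun U => ((((U.card.choose m + c).choose a : ℕ) : ℤ) *
      (((∑ V ∈ U.powersetCard m, β V).choose j : ℕ) : ℤ))) = 0 := by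
  set Q : MvPolynomial ι ℤ :=
    (∏ i ∈ range a, (W m (fun _ => 1) + MvPolynomial.C ((c : ℤ) - i))) *
      (∏ i ∈ range j, (W m (fun V => (β V : ℤ)) + MvPolynomial.C (-(i : ℤ)))) with hQ
  have hdeg : Q.totalDegree < T.card := by
    refine lt_of_le_of_lt ?_ hT
    rw [hQ, Nat.mul_add]
    refine (MvPolynomial.totalDegree_mul _ _).trans ?_
    refine add_le_add ?_ ?_
    · refine (MvPolynomial.totalDegree_finsetProd _ _).trans ?_
      calc _ ≤ ∑ i ∈ range a, m := by
            refine Finset.sum_le_sum fun i _ => ?_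
            refine (MvPolynomial.totalDegree_add _ _).trans ?_
            rw [MvPolynomial.totalDegree_C]
            exact max_le (W_degree m _) (Nat.zero_le _)
        _ = m * a := by rw [Finset.sum_const, Finset.card_range, smul_eq_mul, mul_comm]
    · refine (MvPolynomial.totalDegree_finsetProd _ _).trans ?_
      calc _ ≤ ∑ i ∈ range j, m := by
            refine Finset.sum_le_sum fun i _ => ?_
            refine (MvPolynomial.totalDegree_add _ _).trans ?_
            rw [MvPolynomial.totalDegree_C]
            exact max_le (W_degree m _) (Nat.zero_le _)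
        _ = m * j := by rw [Finset.sum_const, Finset.card_range, smul_eq_mul, mul_comm]
  have hcoe : Q.coeff (∑ t ∈ T, Finsupp.single t 1) = 0 := by
    refine MvPolynomial.coeff_eq_zero_of_totalDegree_lt ?_
    refine lt_of_lt_of_le hdeg ?_
    set e : ι →₀ ℕ := ∑ t ∈ T, Finsupp.single t 1 with he
    have he1 : ∀ i, e i = if i ∈ T then 1 else 0 := by
      intro i
      rw [he, Finsupp.finsetSum_apply]
      simp [Finsupp.single_apply]
    have : ∑ i ∈ e.support, e i = ∑ i, e i := by
      refine Finset.sum_subset (Finset.subset_univ _) fun i _ hi => ?_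
      exact Finsupp.notMem_support_iff.mp hi
    rw [this]
    simp [he1]
  have hdes : ∀ (N x : ℕ), ((x.factorial * N.choose x : ℕ) : ℤ) =
      ∏ i ∈ range x, ((N : ℤ) - i) := by
    intro N x
    rw [← Nat.descFactorial_eq_factorial_mul_choose, ← descPochhammer_eval_eq_descFactorial ℤ N x,
      descPochhammer_eval_eq_prod_range]
  have h1 : ((a.factorial : ℤ) * j.factorial) *
      alt T (fun U => ((((U.card.choose m + c).choose a : ℕ) : ℤ) *
      (((∑ V ∈ U.powersetCard m, β V).choose j : ℕ) : ℤ))) = 0 := by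
    have h2 := alt_eval (fun _ => (1 : ℤ)) Q T hdeg.le
    rw [hcoe, mul_zero] at h2
    rw [← h2, ← alt_mul_left]
    refine alt_congr fun U _ => ?_
    have e1 := hdes (U.card.choose m + c) a
    have e2 := hdes (∑ V ∈ U.powersetCard m, β V) j
    have e3 : MvPolynomial.eval (fun i => if i ∈ U then (1 : ℤ) else 0) Q =
        (∏ i ∈ range a, (((U.card.choose m + c : ℕ) : ℤ) - i)) *
          ∏ i ∈ range j, (((∑ V ∈ U.powersetCard m, β V : ℕ) : ℤ) - i) := by
      rw [hQ, map_mul, map_prod, map_prod]
      congr 1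
      · refine Finset.prod_congr rfl fun i _ => ?_
        rw [map_add, MvPolynomial.eval_C, W_eval]
        simp
        ring
      · refine Finset.prod_congr rfl fun i _ => ?_
        rw [map_add, MvPolynomial.eval_C, W_eval]
        simp
        ring
    rw [e3, ← e1, ← e2]
    push_cast
    ring
  have hn : ((a.factorial : ℤ) * j.factorial) ≠ 0 := by
    exact_mod_cast Nat.mul_ne_zero (Nat.factorial_ne_zero a) (Nat.factorial_ne_zero j)
  exact (mul_eq_zero.mp h1).resolve_left hn

end Pool.Agent.Q250.MZ
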